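import Pool.Agent.Helper40.Nm.Goals

/-! # Packet NAFF: the Neron mapping property for open parts of affine space -/

set_option autoImplicit false

open CategoryTheory AlgebraicGeometry Limits TensorProduct

namespace Pool.Agent.Helper27.Nm

open Pool.Agent.Helper40.Nm

section Ring

variable (R M N : Type) [CommRing R] [Field M] [Algebra R M] (f : MvPolynomial N R)

/-- the polynomial ring with `f` inverted -/
abbrev PF : Type := Localization.Away f

/-- the same over `M` -/
abbrev QF : Type := Localization.Away (MvPolynomial.map (algebraMap R M) f)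

instance smoothPF [Fintype N] : Algebra.Smooth R (PF R N f) := by
  have h2 : Algebra.Smooth R (MvPolynomial N R) := { }
  exact Algebra.Smooth.comp R (MvPolynomial N R) (PF R N f)

/-- auxiliary map -/
noncomputable def thg : MvPolynomial N M →+* PF R N f ⊗[R] M :=
  MvPolynomial.eval₂Hom (Algebra.TensorProduct.includeRight : M →ₐ[R] PF R N f ⊗[R] M).toRingHom
    (fun i => (algebraMap (MvPolynomial N R) (PF R N f) (MvPolynomial.X i)) ⊗ₜ[R] (1 : M))

theorem thg_map : (thg R M N f).comp (MvPolynomial.map (algebraMap R M)) =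
    (Algebra.TensorProduct.includeLeftRingHom : PF R N f →+* PF R N f ⊗[R] M).comp
      (algebraMap (MvPolynomial N R) (PF R N f)) := by
  apply MvPolynomial.ringHom_ext
  · intro r
    simp only [RingHom.comp_apply, MvPolynomial.map_C, thg, MvPolynomial.eval₂Hom_C]
    have h1 : algebraMap (MvPolynomial N R) (PF R N f) (MvPolynomial.C r) =
        algebraMap R (PF R N f) r := by
      rw [IsScalarTower.algebraMap_apply R (MvPolynomial N R) (PF R N f)]
      rfl
    rw [h1]
    have h2 : (Algebra.TensorProduct.includeLeftRingHom : PF R N f →+* PF R N f ⊗[R] M)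
        (algebraMap R (PF R N f) r) = algebraMap R (PF R N f ⊗[R] M) r := rfl
    rw [h2]
    exact AlgHom.commutes (Algebra.TensorProduct.includeRight : M →ₐ[R] PF R N f ⊗[R] M) r
  · intro i
    simp [thg]

theorem thg_unit : IsUnit (thg R M N f (MvPolynomial.map (algebraMap R M) f)) := by
  have h := congrArg (fun g : MvPolynomial N R →+* PF R N f ⊗[R] M => g f) (thg_map R M N f)
  simp only [RingHom.comp_apply] at h
  rw [h]
  exact (IsLocalization.Away.algebraMap_isUnit f).map _

/-- the map `M[x]_f → R[x]_f ⊗ M` -/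
noncomputable def th : QF R M N f →+* PF R N f ⊗[R] M :=
  IsLocalization.Away.lift (MvPolynomial.map (algebraMap R M) f) (thg_unit R M N f)

theorem th_alg (p : MvPolynomial N M) : th R M N f (algebraMap _ _ p) = thg R M N f p :=
  IsLocalization.Away.lift_eq _ _ _

theorem th_M : (th R M N f).comp (algebraMap M (QF R M N f)) =
    (Algebra.TensorProduct.includeRight : M →ₐ[R] PF R N f ⊗[R] M).toRingHom := by
  ext m
  rw [RingHom.comp_apply, IsScalarTower.algebraMap_apply M (MvPolynomial N M) (QF R M N f), th_alg]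
  simp [thg]

/-- evaluation at a point -/
noncomputable def al (a : N → R) (h : IsUnit (MvPolynomial.eval a f)) : PF R N f →+* R :=
  IsLocalization.Away.lift f h

theorem al_alg (a : N → R) (h : IsUnit (MvPolynomial.eval a f)) (p : MvPolynomial N R) :
    al R N f a h (algebraMap _ _ p) = MvPolynomial.eval a p :=
  IsLocalization.Away.lift_eq _ _ _

theorem al_R (a : N → R) (h : IsUnit (MvPolynomial.eval a f)) (r : R) :
    al R N f a h (algebraMap R _ r) = r := by
  rw [IsScalarTower.algebraMap_apply R (MvPolynomial N R) (PF R N f), al_alg]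
  simp

/-- evaluation as an algebra map into `M` -/
noncomputable def alM (a : N → R) (h : IsUnit (MvPolynomial.eval a f)) : PF R N f →ₐ[R] M :=
  { (algebraMap R M).comp (al R N f a h) with
    commutes' := fun r => by
      show algebraMap R M (al R N f a h (algebraMap R _ r)) = _
      rw [al_R] }

/-- the map `R[x]_f ⊗ M → M` -/
noncomputable def ka (a : N → R) (h : IsUnit (MvPolynomial.eval a f)) :
    PF R N f ⊗[R] M →+* M :=
  (Algebra.TensorProduct.lift (alM R M N f a h) (AlgHom.id R M)
    (fun _ _ => Commute.all _ _)).toRingHom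

theorem ka_left (a : N → R) (h : IsUnit (MvPolynomial.eval a f)) :
    (ka R M N f a h).comp (Algebra.TensorProduct.includeLeftRingHom) =
      (algebraMap R M).comp (al R N f a h) := by
  ext x
  show Algebra.TensorProduct.lift (alM R M N f a h) (AlgHom.id R M)
    (fun _ _ => Commute.all _ _) (x ⊗ₜ[R] (1 : M)) = algebraMap R M (al R N f a h x)
  rw [Algebra.TensorProduct.lift_tmul, map_one, mul_one]
  rfl

theorem ka_th (a : N → R) (h : IsUnit (MvPolynomial.eval a f)) (e : QF R M N f →ₐ[M] M)
    (he : ∀ i, e (algebraMap (MvPolynomial N M) _ (MvPolynomial.X i)) = algebraMap R M (a i)) :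
    (ka R M N f a h).comp (th R M N f) = e.toRingHom := by
  apply IsLocalization.ringHom_ext (Submonoid.powers (MvPolynomial.map (algebraMap R M) f))
  apply MvPolynomial.ringHom_ext
  · intro m
    have h1 : algebraMap (MvPolynomial N M) (QF R M N f) (MvPolynomial.C m) =
        algebraMap M (QF R M N f) m := by
      rw [IsScalarTower.algebraMap_apply M (MvPolynomial N M) (QF R M N f)]
      rfl
    show ka R M N f a h (th R M N f (algebraMap _ _ (MvPolynomial.C m))) =
      e (algebraMap _ _ (MvPolynomial.C m))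
    rw [th_alg, h1, e.commutes]
    simp only [thg, MvPolynomial.eval₂Hom_C]
    show Algebra.TensorProduct.lift (alM R M N f a h) (AlgHom.id R M)
      (fun _ _ => Commute.all _ _) ((1 : PF R N f) ⊗ₜ[R] m) = m
    rw [Algebra.TensorProduct.lift_tmul, map_one, one_mul]
    rfl
  · intro i
    show ka R M N f a h (th R M N f (algebraMap _ _ (MvPolynomial.X i))) =
      e (algebraMap _ _ (MvPolynomial.X i))
    rw [th_alg, he]
    simp only [thg, MvPolynomial.coe_eval₂Hom, MvPolynomial.eval₂_X]
    show Algebra.TensorProduct.lift (alM R M N f a h) (AlgHom.id R M)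
      (fun _ _ => Commute.all _ _)
      ((algebraMap (MvPolynomial N R) (PF R N f) (MvPolynomial.X i)) ⊗ₜ[R] (1 : M)) = _
    rw [Algebra.TensorProduct.lift_tmul, map_one, mul_one]
    show algebraMap R M (al R N f a h (algebraMap _ _ (MvPolynomial.X i))) = _
    rw [al_alg, MvPolynomial.eval_X]

end Ring

section Local

variable (R N : Type) [CommRing R] [IsLocalRing R] (f : MvPolynomial N R)

/-- auxiliary map -/
noncomputable def rh0 : MvPolynomial N R →+*
    FractionRing (MvPolynomial N (IsLocalRing.ResidueField R)) :=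
  (algebraMap _ _).comp (MvPolynomial.map (IsLocalRing.residue R))

theorem rh0_ne (a : N → R) (h : IsUnit (MvPolynomial.eval a f)) : rh0 R N f ≠ 0 := by
  intro h0
  have h1 : MvPolynomial.map (IsLocalRing.residue R) f = 0 := by
    have h2 : algebraMap (MvPolynomial N (IsLocalRing.ResidueField R))
        (FractionRing (MvPolynomial N (IsLocalRing.ResidueField R)))
        (MvPolynomial.map (IsLocalRing.residue R) f) = 0 := h0
    exact (IsFractionRing.injective _ _) (h2.trans (map_zero _).symm)
  have h2 : IsLocalRing.residue R (MvPolynomial.eval a f) = 0 := by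
    rw [MvPolynomial.eval, MvPolynomial.coe_eval₂Hom, MvPolynomial.hom_eval₂, RingHom.comp_id,
      ← MvPolynomial.eval_map, h1, map_zero]
  exact (h.map (IsLocalRing.residue R)).ne_zero h2

/-- the generic point of the special fibre -/
noncomputable def rh (a : N → R) (h : IsUnit (MvPolynomial.eval a f)) :
    PF R N f →+* FractionRing (MvPolynomial N (IsLocalRing.ResidueField R)) :=
  IsLocalization.Away.lift f (g := rh0 R N) (IsUnit.mk0 _ (rh0_ne R N f a h))

theorem rh_alg (a : N → R) (h : IsUnit (MvPolynomial.eval a f)) (p : MvPolynomial N R) :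
    rh R N f a h (algebraMap _ _ p) = rh0 R N p :=
  IsLocalization.Away.lift_eq _ _ _

/-- the generic point of the special fibre -/
noncomputable def xi (a : N → R) (h : IsUnit (MvPolynomial.eval a f)) :
    PrimeSpectrum (PF R N f) := ⟨RingHom.ker (rh R N f a h), RingHom.ker_isPrime _⟩

theorem comap_xi (a : N → R) (h : IsUnit (MvPolynomial.eval a f)) :
    PrimeSpectrum.comap (algebraMap R (PF R N f)) (xi R N f a h) = IsLocalRing.closedPoint R := by
  apply PrimeSpectrum.ext
  ext r
  show rh R N f a h (algebraMap R (PF R N f) r) = 0 ↔ r ∈ IsLocalRing.maximalIdeal R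
  rw [IsScalarTower.algebraMap_apply R (MvPolynomial N R) (PF R N f), rh_alg,
    ← IsLocalRing.residue_eq_zero_iff]
  show algebraMap (MvPolynomial N (IsLocalRing.ResidueField R))
    (FractionRing (MvPolynomial N (IsLocalRing.ResidueField R)))
    (MvPolynomial.map (IsLocalRing.residue R) (MvPolynomial.C r)) = 0 ↔ _
  rw [MvPolynomial.map_C, map_eq_zero_iff _ (IsFractionRing.injective
    (MvPolynomial N (IsLocalRing.ResidueField R))
    (FractionRing (MvPolynomial N (IsLocalRing.ResidueField R)))),
    map_eq_zero_iff _ (MvPolynomial.C_injective N _)]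

theorem xi_le (a : N → R) (h : IsUnit (MvPolynomial.eval a f)) (q : PrimeSpectrum (PF R N f))
    (hq : PrimeSpectrum.comap (algebraMap R (PF R N f)) q = IsLocalRing.closedPoint R) :
    q ∈ closure {xi R N f a h} := by
  rw [← PrimeSpectrum.le_iff_mem_closure]
  intro z hz
  have hz' : rh R N f a h z = 0 := hz
  obtain ⟨⟨p, w⟩, hpw⟩ := IsLocalization.surj (Submonoid.powers f) z
  simp only at hpw
  have h1 : rh0 R N p = 0 := by
    rw [← rh_alg R N f a h, ← hpw, map_mul, hz', zero_mul]
  have h2 : MvPolynomial.map (IsLocalRing.residue R) p = 0 := by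
    have h1' : algebraMap (MvPolynomial N (IsLocalRing.ResidueField R))
        (FractionRing (MvPolynomial N (IsLocalRing.ResidueField R)))
        (MvPolynomial.map (IsLocalRing.residue R) p) = 0 := h1
    exact (IsFractionRing.injective _ _) (h1'.trans (map_zero _).symm)
  have h3 : p ∈ Ideal.map (MvPolynomial.C : R →+* MvPolynomial N R)
      (IsLocalRing.maximalIdeal R) := by
    rw [MvPolynomial.mem_map_C_iff]
    intro m
    rw [← IsLocalRing.residue_eq_zero_iff, ← MvPolynomial.coeff_map, h2]
    simp
  have h4 : Ideal.map (MvPolynomial.C : R →+* MvPolynomial N R) (IsLocalRing.maximalIdeal R) ≤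
      Ideal.comap (algebraMap (MvPolynomial N R) (PF R N f)) q.asIdeal := by
    rw [Ideal.map_le_iff_le_comap]
    intro r hr
    show algebraMap (MvPolynomial N R) (PF R N f) (MvPolynomial.C r) ∈ q.asIdeal
    have h5 : algebraMap (MvPolynomial N R) (PF R N f) (MvPolynomial.C r) =
        algebraMap R (PF R N f) r := by
      rw [IsScalarTower.algebraMap_apply R (MvPolynomial N R) (PF R N f)]
      rfl
    rw [h5]
    have h6 : r ∈ (PrimeSpectrum.comap (algebraMap R (PF R N f)) q).asIdeal := by
      rw [hq]
      exact hr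
    exact h6
  have h7 : z * algebraMap (MvPolynomial N R) (PF R N f) w ∈ q.asIdeal := by
    rw [hpw]
    exact h4 h3
  rcases q.isPrime.mem_or_mem h7 with h8 | h8
  · exact h8
  · exact absurd (Ideal.eq_top_of_isUnit_mem _ h8 (IsLocalization.map_units _ w)) q.isPrime.ne_top

end Local

section Scheme

variable {R M B : Type} [CommRing R] [IsDomain R] [IsDiscreteValuationRing R] [Field M]
  [Algebra R M] [IsFractionRing R M] [CommRing B] [HopfAlgebra M B] {N : Type} [Fintype N]
  {f : MvPolynomial N R}

/-- the open part of affine space -/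
noncomputable abbrev YY (R N : Type) [CommRing R] (f : MvPolynomial N R) :
    Over (Spec (CommRingCat.of R)) := specOver (algebraMap R (PF R N f))

theorem smoothYY (R N : Type) [CommRing R] [Fintype N] (f : MvPolynomial N R) :
    Smooth (YY R N f).hom := by
  show Smooth (Spec.map (CommRingCat.ofHom (algebraMap R (PF R N f))))
  rw [HasRingHomProperty.Spec_iff (P := @Smooth)]
  exact RingHom.smooth_algebraMap.2 (smoothPF R N f)

/-- the map from the generic fibre -/
noncomputable def uu (φ : B →ₐ[M] QF R M N f) :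
    pullback (Spec.map (CommRingCat.ofHom (algebraMap R (PF R N f))))
      (Spec.map (CommRingCat.ofHom (algebraMap R M))) ⟶ Spec (CommRingCat.of B) :=
  (pullbackSpecIso R (PF R N f) M).hom ≫ Spec.map (CommRingCat.ofHom (th R M N f)) ≫
    Spec.map (CommRingCat.ofHom φ.toRingHom)

theorem uu_snd (φ : B →ₐ[M] QF R M N f) :
    uu φ ≫ Spec.map (CommRingCat.ofHom (algebraMap M B)) = pullback.snd _ _ := by
  have h1 : φ.toRingHom.comp (algebraMap M B) = algebraMap M (QF R M N f) :=
    AlgHom.comp_algebraMap φ
  unfold uu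
  rw [Category.assoc, Category.assoc, ← Spec.map_comp, ← CommRingCat.ofHom_comp, h1,
    ← Spec.map_comp, ← CommRingCat.ofHom_comp, th_M]
  exact pullbackSpecIso_hom_snd R (PF R N f) M

/-- the section of affine space -/
noncomputable def AA (a : N → R) (h : IsUnit (MvPolynomial.eval a f)) :
    specOver (RingHom.id R) ⟶ YY R N f :=
  Over.homMk (Spec.map (CommRingCat.ofHom (al R N f a h))) (by
    show Spec.map (CommRingCat.ofHom (al R N f a h)) ≫
      Spec.map (CommRingCat.ofHom (algebraMap R (PF R N f))) =
      Spec.map (CommRingCat.ofHom (RingHom.id R))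
    rw [← Spec.map_comp, ← CommRingCat.ofHom_comp]
    congr 2
    ext r
    exact al_R R N f a h r)

theorem lifts_AA (𝒢 : NeronLftModel R M B) (φ : B →ₐ[M] QF R M N f) (F : YY R N f ⟶ 𝒢.G)
    (hF : pullback.fst (Spec.map (CommRingCat.ofHom (algebraMap R (PF R N f))))
      (Spec.map (CommRingCat.ofHom (algebraMap R M))) ≫ F.left = uu φ ≫ 𝒢.j)
    (a : N → R) (h : IsUnit (MvPolynomial.eval a f)) (e : QF R M N f →ₐ[M] M)
    (he : ∀ i, e (algebraMap (MvPolynomial N M) _ (MvPolynomial.X i)) = algebraMap R M (a i)) :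
    Lifts 𝒢 (e.comp φ) (AA a h ≫ F) := by
  have h1 : Spec.map (CommRingCat.ofHom (algebraMap R M)) ≫
      Spec.map (CommRingCat.ofHom (al R N f a h)) =
      Spec.map (CommRingCat.ofHom (ka R M N f a h)) ≫ (pullbackSpecIso R (PF R N f) M).inv ≫
        pullback.fst _ _ := by
    rw [pullbackSpecIso_inv_fst, ← Spec.map_comp, ← Spec.map_comp, ← CommRingCat.ofHom_comp,
      ← CommRingCat.ofHom_comp, ka_left]
  have h2 : ((ka R M N f a h).comp (th R M N f)).comp φ.toRingHom = (e.comp φ).toRingHom := by
    rw [ka_th R M N f a h e he]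
    rfl
  show Spec.map (CommRingCat.ofHom (algebraMap R M)) ≫
    (Spec.map (CommRingCat.ofHom (al R N f a h)) ≫ F.left) = _
  rw [← Category.assoc, h1, Category.assoc, Category.assoc, hF]
  unfold uu
  rw [Category.assoc, Category.assoc, Iso.inv_hom_id_assoc, ← Spec.map_comp_assoc,
    ← CommRingCat.ofHom_comp, ← Spec.map_comp_assoc, ← CommRingCat.ofHom_comp, h2]

theorem cpt_AA (G : Over (Spec (CommRingCat.of R))) (F : YY R N f ⟶ G)
    (a : N → R) (h : IsUnit (MvPolynomial.eval a f)) :
    ∃ q : PrimeSpectrum (PF R N f),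
      PrimeSpectrum.comap (algebraMap R (PF R N f)) q = IsLocalRing.closedPoint R ∧
      cpt (AA a h ≫ F) = F.left q := by
  refine ⟨PrimeSpectrum.comap (al R N f a h) (IsLocalRing.closedPoint R), ?_, rfl⟩
  have h3 : (al R N f a h).comp (algebraMap R (PF R N f)) = RingHom.id R := by
    ext r
    exact al_R R N f a h r
  rw [← PrimeSpectrum.comap_comp_apply, h3]
  rfl

theorem F_special (G : Over (Spec (CommRingCat.of R))) (F : YY R N f ⟶ G)
    (q : PrimeSpectrum (PF R N f))
    (hq : PrimeSpectrum.comap (algebraMap R (PF R N f)) q = IsLocalRing.closedPoint R) :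
    F.left q ∈ specialFibre G := by
  have h1 : F.left ≫ G.hom = (YY R N f).hom := Over.w F
  show G.hom (F.left q) = IsLocalRing.closedPoint R
  rw [← hq, ← Scheme.Hom.comp_apply, h1]
  rfl

theorem sameComp_AA (G : Over (Spec (CommRingCat.of R))) (F : YY R N f ⟶ G)
    (a a' : N → R) (h : IsUnit (MvPolynomial.eval a f)) (h' : IsUnit (MvPolynomial.eval a' f)) :
    SameComp (AA a h ≫ F) (AA a' h' ≫ F) := by
  set W : Set (PrimeSpectrum (PF R N f)) :=
    {q | PrimeSpectrum.comap (algebraMap R (PF R N f)) q = IsLocalRing.closedPoint R} with hW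
  have h1 : _root_.IsPreconnected W := by
    apply IsPreconnected.subset_closure (isPreconnected_singleton (x := xi R N f a h))
    · intro q hq
      rw [Set.mem_singleton_iff] at hq
      rw [hq]
      exact comap_xi R N f a h
    · intro q hq
      exact xi_le R N f a h q hq
  have h2 : Continuous (fun q : PrimeSpectrum (PF R N f) => F.left q) := F.left.continuous
  have h3 := h1.image _ h2.continuousOn
  obtain ⟨q, hq, hcq⟩ := cpt_AA G F a h
  obtain ⟨q', hq', hcq'⟩ := cpt_AA G F a' h'
  have h4 : (fun q : PrimeSpectrum (PF R N f) => F.left q) '' W ⊆ specialFibre G := by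
    rintro _ ⟨r, hr, rfl⟩
    exact F_special G F r hr
  have h5 : cpt (AA a h ≫ F) ∈ (fun q : PrimeSpectrum (PF R N f) => F.left q) '' W :=
    ⟨q, hq, hcq.symm⟩
  have h6 : cpt (AA a' h' ≫ F) ∈ (fun q : PrimeSpectrum (PF R N f) => F.left q) '' W :=
    ⟨q', hq', hcq'.symm⟩
  exact h3.subset_connectedComponentIn h5 h4 h6

theorem redk_AA (G : Over (Spec (CommRingCat.of R))) (F : YY R N f ⟶ G)
    (a a' : N → R) (h : IsUnit (MvPolynomial.eval a f)) (h' : IsUnit (MvPolynomial.eval a' f))
    (haa : ∀ i, a i - a' i ∈ IsLocalRing.maximalIdeal R) :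
    redk (AA a h ≫ F) = redk (AA a' h' ≫ F) := by
  have h1 : (IsLocalRing.residue R).comp (al R N f a h) =
      (IsLocalRing.residue R).comp (al R N f a' h') := by
    apply IsLocalization.ringHom_ext (Submonoid.powers f)
    apply MvPolynomial.ringHom_ext
    · intro r
      show IsLocalRing.residue R (al R N f a h (algebraMap _ _ (MvPolynomial.C r))) =
        IsLocalRing.residue R (al R N f a' h' (algebraMap _ _ (MvPolynomial.C r)))
      rw [al_alg, al_alg, MvPolynomial.eval_C, MvPolynomial.eval_C]
    · intro i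
      show IsLocalRing.residue R (al R N f a h (algebraMap _ _ (MvPolynomial.X i))) =
        IsLocalRing.residue R (al R N f a' h' (algebraMap _ _ (MvPolynomial.X i)))
      rw [al_alg, al_alg, MvPolynomial.eval_X, MvPolynomial.eval_X, ← sub_eq_zero, ← map_sub,
        IsLocalRing.residue_eq_zero_iff]
      exact haa i
  have h2 : closedIncl R ≫ (AA a h : specOver (RingHom.id R) ⟶ YY R N f) =
      closedIncl R ≫ AA a' h' := by
    apply Over.OverMorphism.ext
    show Spec.map (CommRingCat.ofHom (IsLocalRing.residue R)) ≫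
      Spec.map (CommRingCat.ofHom (al R N f a h)) =
      Spec.map (CommRingCat.ofHom (IsLocalRing.residue R)) ≫
      Spec.map (CommRingCat.ofHom (al R N f a' h'))
    rw [← Spec.map_comp, ← Spec.map_comp, ← CommRingCat.ofHom_comp, ← CommRingCat.ofHom_comp, h1]
  unfold redk
  rw [← Category.assoc, h2, Category.assoc]

end Scheme

theorem naff : SEC → NAFF := by
  intro hS R M B _ _ _ _ _ _ _ _ 𝒢 N _ f φ a a' e e' s s' h h' he he' hs hs'
  obtain ⟨F, hF, _⟩ := 𝒢.neron (YY R N f) (smoothYY R N f) (uu φ) (uu_snd φ)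
  have k := lifts_AA 𝒢 φ F hF a h e he
  have k' := lifts_AA 𝒢 φ F hF a' h' e' he'
  have e1 : s = AA a h ≫ F := ((hS R M B 𝒢).1 (e.comp φ)).unique hs k
  have e2 : s' = AA a' h' ≫ F := ((hS R M B 𝒢).1 (e'.comp φ)).unique hs' k'
  rw [e1, e2]
  exact ⟨sameComp_AA 𝒢.G F a a' h h', fun haa => redk_AA 𝒢.G F a a' h h' haa⟩

end Pool.Agent.Helper27.Nm
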